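import Pool.Agent.H73.CO.Defs

/-!
# The invariant form of Theorem IV: definition (helper86, MP_3dbb84_gt)

`G` is a compact connected group of rotations of `ℝ^m` which preserves `N`, its orbits are the
levels of `F`; `𝔛` is its Lie algebra.
-/

set_option autoImplicit false

open scoped ContDiff Topology RealInnerProductSpace
open Set Filter

namespace Pool.Agent.H86.GI

open Pool.Agent.H57.NL

variable {m : ℕ}

/-- `S` is invariant under the rotations `exp (t A)`, `A ∈ 𝔛`, for a linear space `𝔛` of skew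
symmetric maps such that the tangent vectors of each level of `F` in `N` at `q` are the vectors
`A q`, `A ∈ 𝔛`. -/
def Invt (N : Set (E m)) (F : E m → ℝ) (S : Set (E m × E m)) : Prop :=
  ∃ 𝔛 : Submodule ℝ (E m →L[ℝ] E m), (∀ A ∈ 𝔛, ∀ v w : E m, ⟪A v, w⟫ = -⟪v, A w⟫) ∧
    (∀ q ∈ N, Tan {y | y ∈ N ∧ F y = F q} q = {v | ∃ A ∈ 𝔛, A q = v}) ∧
    ∀ A ∈ 𝔛, ∀ t : ℝ, ∀ z ∈ S, (NormedSpace.exp (t • A) z.1, NormedSpace.exp (t • A) z.2) ∈ S

end Pool.Agent.H86.GI
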