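import Pool.Agent.H73.CO.NgD

/-!
# Tangent vectors of the regular levels
-/

set_option autoImplicit false

open scoped ContDiff Topology RealInnerProductSpace
open Set Filter

namespace Pool.Agent.H86.GI

open Pool.Agent.H57.NL Pool.Agent.H2.TG Pool.Agent.H2.TI Pool.Agent.H73.CO

variable {m n : ℕ} {N : Set (E m)} {Pr : E m → (E m →L[ℝ] E m)} {F : E m → ℝ}
  {g : E m → E m}

private noncomputable def glPi (G : ℝ → E m × E m → E m × E m) (F : E m → ℝ) (g : E m → E m)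
    (a : ℝ) (q : E m) : E m :=
  (G (Real.arccos a - Real.arccos (F q)) (q, -((√(1 - F q ^ 2))⁻¹ • g q))).1

private lemma gl_pos {x : ℝ} (hx : |x| < 1) : 0 < 1 - x ^ 2 := by
  have h1 := abs_lt.1 hx
  nlinarith [h1.1, h1.2]

private lemma gl_spec (h : TD n N Pr F g) {G : ℝ → E m × E m → E m × E m} (hG : Geo N Pr 1 G)
    {a : ℝ} (ha : |a| < 1) {q : E m} (hq : q ∈ N) (hr : |F q| < 1) :
    glPi G F g a q ∈ N ∧ F (glPi G F g a q) = a := by
  obtain ⟨c, hc, hcq⟩ := exists_ng_reg h hq hr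
  have hsin : Real.sin (Real.arccos (F q)) = √(1 - F q ^ 2) := Real.sin_arccos _
  have hs0 : 0 < √(1 - F q ^ 2) := Real.sqrt_pos.2 (gl_pos hr)
  have hder := ng_der_reg hc (θ := Real.arccos (F q)) (by rw [hsin]; exact hs0.ne')
  rw [hsin, hcq] at hder
  have hgeo := ng_geo hG le_rfl hc.gc (Real.arccos (F q)) (Real.arccos a - Real.arccos (F q))
  rw [hder, hcq, add_sub_cancel] at hgeo
  have he : glPi G F g a q = c (Real.arccos a) := (congrArg Prod.fst hgeo).symm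
  rw [he]
  refine ⟨hc.mem _, ?_⟩
  rw [hc.lev, Real.cos_arccos (abs_lt.1 ha).1.le (abs_lt.1 ha).2.le]

theorem tan_lev (h : TD n N Pr F g) {q v : E m} (hq : q ∈ N) (hr : |F q| < 1)
    (hv : v ∈ Tan N q) (hg : ⟪g q, v⟫ = 0) : v ∈ Tan {y | y ∈ N ∧ F y = F q} q := by
  obtain ⟨G, hG⟩ := exists_geo h.mfd h.proj 1
  have hdF : fderiv ℝ F q v = 0 := by rw [h.dF hq hv, hg]
  obtain ⟨γ, h0, hS, hd⟩ := hv
  subst h0
  have hFd : HasDerivAt (fun s => F (γ s)) 0 0 := by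
    have h1 := ((h.trans.smooth.differentiable (by simp)) (γ 0)).hasFDerivAt.comp_hasDerivAt
      (0 : ℝ) hd
    rw [hdF] at h1
    exact h1
  have hτ : HasDerivAt (fun s => Real.arccos (F (γ 0)) - Real.arccos (F (γ s))) 0 0 := by
    have h1 := (Real.hasDerivAt_arccos (abs_lt.1 hr).1.ne' (abs_lt.1 hr).2.ne).comp
      (0 : ℝ) hFd
    have h2 := h1.const_sub (Real.arccos (F (γ 0)))
    rw [mul_zero, neg_zero] at h2
    exact h2
  obtain ⟨w, hw⟩ : ∃ w, HasDerivAt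
      (fun s => (γ s, -((√(1 - F (γ s) ^ 2))⁻¹ • g (γ s)))) (v, w) 0 := by
    have h1 : DifferentiableAt ℝ (fun s => F (γ s)) 0 := hFd.differentiableAt
    have h2 : DifferentiableAt ℝ (fun s => 1 - F (γ s) ^ 2) 0 := (h1.pow 2).const_sub 1
    have h3 : DifferentiableAt ℝ (fun s => √(1 - F (γ s) ^ 2)) 0 := h2.sqrt (gl_pos hr).ne'
    have h4 : DifferentiableAt ℝ (fun s => (√(1 - F (γ s) ^ 2))⁻¹) 0 :=
      h3.inv (Real.sqrt_pos.2 (gl_pos hr)).ne'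
    have h5 : DifferentiableAt ℝ (fun s => g (γ s)) 0 :=
      ((h.smooth.differentiable (by simp)) (γ 0)).comp (0 : ℝ) hd.differentiableAt
    exact ⟨_, hd.prodMk (h4.smul h5).neg.hasDerivAt⟩
  have hGd : HasFDerivAt (fun x : ℝ × (E m × E m) => G x.1 x.2)
      (fderiv ℝ (fun x : ℝ × (E m × E m) => G x.1 x.2)
        (0, (γ 0, -((√(1 - F (γ 0) ^ 2))⁻¹ • g (γ 0)))))
      (0, (γ 0, -((√(1 - F (γ 0) ^ 2))⁻¹ • g (γ 0)))) :=
    ((hG.smooth.differentiable (by simp)) _).hasFDerivAt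
  have hid : ∀ ζ : E m × E m, fderiv ℝ (fun x : ℝ × (E m × E m) => G x.1 x.2)
      (0, (γ 0, -((√(1 - F (γ 0) ^ 2))⁻¹ • g (γ 0)))) (0, ζ) = ζ := by
    intro ζ
    have hl : HasDerivAt (fun s : ℝ => ((0 : ℝ),
        (γ 0, -((√(1 - F (γ 0) ^ 2))⁻¹ • g (γ 0))) + s • ζ)) (0, ζ) 0 := by
      have h1 := ((hasDerivAt_id (0 : ℝ)).smul_const ζ).const_add
        (γ 0, -((√(1 - F (γ 0) ^ 2))⁻¹ • g (γ 0)))
      rw [one_smul] at h1
      exact (hasDerivAt_const (0 : ℝ) (0 : ℝ)).prodMk h1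
    have h2 : HasFDerivAt (fun x : ℝ × (E m × E m) => G x.1 x.2)
      (fderiv ℝ (fun x : ℝ × (E m × E m) => G x.1 x.2)
        (0, (γ 0, -((√(1 - F (γ 0) ^ 2))⁻¹ • g (γ 0)))))
      ((fun s : ℝ => ((0 : ℝ), (γ 0, -((√(1 - F (γ 0) ^ 2))⁻¹ • g (γ 0))) + s • ζ)) 0) := by
      simpa using hGd
    have h3 := h2.comp_hasDerivAt (0 : ℝ) hl
    have h4 : HasDerivAt (fun s : ℝ => (γ 0, -((√(1 - F (γ 0) ^ 2))⁻¹ • g (γ 0))) + s • ζ) ζ 0 := by
      have h1 := ((hasDerivAt_id (0 : ℝ)).smul_const ζ).const_add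
        (γ 0, -((√(1 - F (γ 0) ^ 2))⁻¹ • g (γ 0)))
      rw [one_smul] at h1
      exact h1
    refine (h3.unique (h4.congr_of_eventuallyEq (Eventually.of_forall fun s => ?_)))
    exact hG.zero _
  refine ⟨fun s => glPi G F g (F (γ 0)) (γ s), ?_, ?_, ?_⟩
  · show glPi G F g (F (γ 0)) (γ 0) = γ 0
    unfold glPi
    rw [sub_self, hG.zero]
  · have h1 : ∀ᶠ s in 𝓝 (0 : ℝ), |F (γ s)| < 1 :=
      hFd.continuousAt.abs.eventually (gt_mem_nhds hr)
    filter_upwards [hS, h1] with s hs1 hs2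
    exact gl_spec h hG hr hs1 hs2
  · have h1 : HasFDerivAt (fun x : ℝ × (E m × E m) => G x.1 x.2)
      (fderiv ℝ (fun x : ℝ × (E m × E m) => G x.1 x.2)
        (0, (γ 0, -((√(1 - F (γ 0) ^ 2))⁻¹ • g (γ 0)))))
      ((fun s : ℝ => (Real.arccos (F (γ 0)) - Real.arccos (F (γ s)),
        (γ s, -((√(1 - F (γ s) ^ 2))⁻¹ • g (γ s))))) 0) := by
      simpa using hGd
    have h2 := h1.comp_hasDerivAt (0 : ℝ) (hτ.prodMk hw)
    rw [hid] at h2
    exact h2.fst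

end Pool.Agent.H86.GI
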