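import Pool.Agent.H86.GI.Mom
import Pool.Agent.H86.GI.Lev
import Pool.Agent.H73.CO.MFm
import Pool.Agent.H73.CO.Red

/-!
# Invariant exact Lagrangians are contained in `MF N g`
-/

set_option autoImplicit false

open scoped ContDiff Topology RealInnerProductSpace
open Set Filter

namespace Pool.Agent.H86.GI

open Pool.Agent.H57.NL Pool.Agent.H2.TG Pool.Agent.H2.TI Pool.Agent.H73.CO

variable {m n : ℕ} {N : Set (E m)} {Pr : E m → (E m →L[ℝ] E m)} {F : E m → ℝ}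
  {g : E m → E m} {S : Set (E m × E m)} {f : E m × E m → ℝ} {𝔛 : Submodule ℝ (E m →L[ℝ] E m)}

private lemma gi_reg (h : TD n N Pr F g)
    (ht : ∀ q ∈ N, Tan {y | y ∈ N ∧ F y = F q} q = {v | ∃ A ∈ 𝔛, A q = v})
    {z : E m × E m} (hz : z ∈ TN N) (hr : |F z.1| < 1) (hu : ∀ A ∈ 𝔛, ⟪z.2, A z.1⟫ = 0) :
    z ∈ MF N g := by
  have hg : ‖g z.1‖ ^ 2 ≠ 0 := by
    rw [h.trans.norm _ hz.1]
    have h1 := abs_lt.1 hr
    nlinarith [h1.1, h1.2]
  set k : ℝ := ⟪g z.1, z.2⟫ / ‖g z.1‖ ^ 2 with hk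
  have hv : z.2 - k • g z.1 ∈ Tan N z.1 :=
    h.mfd.sub.tan_sub hz.1 hz.2 (Tan.smul (h.trans.tan _ hz.1) k)
  have hgv : ⟪g z.1, z.2 - k • g z.1⟫ = 0 := by
    rw [inner_sub_right, inner_smul_right, real_inner_self_eq_norm_sq, hk,
      div_mul_cancel₀ _ hg, sub_self]
  have h1 := tan_lev h hz.1 hr hv hgv
  rw [ht z.1 hz.1] at h1
  obtain ⟨A, hA, hAv⟩ := h1
  have h2 := hu A hA
  rw [hAv] at h2
  have h3 : ⟪z.2 - k • g z.1, z.2 - k • g z.1⟫ = 0 := by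
    rw [inner_sub_left, h2, inner_smul_left, hgv, mul_zero, sub_zero]
  have h4 : z.2 - k • g z.1 = 0 := inner_self_eq_zero.1 h3
  exact subset_closure ⟨hz.1, k, sub_eq_zero.1 h4⟩

private lemma gi_sing (h : TD n N Pr F g)
    (hs : ∀ A ∈ 𝔛, ∀ v w : E m, ⟪A v, w⟫ = -⟪v, A w⟫)
    (ht : ∀ q ∈ N, Tan {y | y ∈ N ∧ F y = F q} q = {v | ∃ A ∈ 𝔛, A q = v})
    {z : E m × E m} (hz : z ∈ TN N) (hr : |F z.1| = 1) (hu : ∀ A ∈ 𝔛, ⟪z.2, A z.1⟫ = 0) :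
    z ∈ MF N g := by
  by_cases hp : z.2 = 0
  · exact subset_closure ⟨hz.1, 0, by rw [hp, zero_smul]⟩
  have hp0 : 0 < ‖z.2‖ := norm_pos_iff.2 hp
  obtain ⟨G, hG⟩ := exists_geo h.mfd h.proj 1
  have hz' : ((z.1, ‖z.2‖⁻¹ • z.2) : E m × E m) ∈ TN N := ⟨hz.1, Tan.smul hz.2 _⟩
  have hz1 : ‖((z.1, ‖z.2‖⁻¹ • z.2) : E m × E m).2‖ = 1 := by
    show ‖‖z.2‖⁻¹ • z.2‖ = 1
    rw [norm_smul, norm_inv, norm_norm, inv_mul_cancel₀ hp0.ne']
  obtain ⟨hc, hcd⟩ := gc_of_geo hG le_rfl hz' hz1 0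
  set c : ℝ → E m := fun θ => (G (θ - 0) (z.1, ‖z.2‖⁻¹ • z.2)).1 with hcdef
  have hc0 : c 0 = z.1 := by
    show (G (0 - 0) (z.1, ‖z.2‖⁻¹ • z.2)).1 = z.1
    rw [sub_zero, hG.zero]
  have hd0 : deriv c 0 = ‖z.2‖⁻¹ • z.2 := by
    rw [hcd 0, sub_zero, hG.zero]
  have hA : ∀ A ∈ 𝔛, ∀ q ∈ N, A q ∈ Tan N q := by
    intro A hA q hq
    have h1 : A q ∈ Tan {y | y ∈ N ∧ F y = F q} q := by
      rw [ht q hq]
      exact ⟨A, hA, rfl⟩
    obtain ⟨γ, g0, gS, gd⟩ := h1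
    exact ⟨γ, g0, gS.mono fun s hs => hs.1, gd⟩
  have hu' : ∀ A ∈ 𝔛, ∀ θ, ⟪deriv c θ, A (c θ)⟫ = 0 := by
    intro A hAX θ
    have hd : ∀ θ, HasDerivAt (fun θ => ⟪deriv c θ, A (c θ)⟫) 0 θ := by
      intro θ
      have h1 : HasDerivAt c (deriv c θ) θ := ((hc.smooth.differentiable (by simp)) θ).hasDerivAt
      have h2 : HasDerivAt (deriv c) (deriv (deriv c) θ) θ :=
        (((contDiff_infty_iff_deriv.1 hc.smooth).2.differentiable (by simp)) θ).hasDerivAt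
      have h3 := h2.inner ℝ (A.hasFDerivAt.comp_hasDerivAt θ h1)
      have h4 : ⟪deriv c θ, A (deriv c θ)⟫ = 0 := by
        have h5 := hs A hAX (deriv c θ) (deriv c θ)
        rw [real_inner_comm] at h5
        linarith
      have h5 : ⟪deriv (deriv c) θ, A (c θ)⟫ = 0 := by
        rw [hc.geod θ]
        exact dpr_orth h.mfd.sub h.proj (hc.mem θ) (gc_tan hc θ) (gc_tan hc θ)
          (hA A hAX _ (hc.mem θ))
      have h6 : ⟪deriv c θ, A (deriv c θ)⟫ + ⟪deriv (deriv c) θ, A (c θ)⟫ = 0 := by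
        rw [h4, h5, add_zero]
      rw [← h6]
      exact h3
    have h1 := is_const_of_deriv_eq_zero (fun t => (hd t).differentiableAt)
      (fun t => (hd t).deriv) θ 0
    rw [h1, hc0, hd0, inner_smul_left, hu A hAX, mul_zero]
  have hfr : ∃ᶠ θ in 𝓝 (0 : ℝ), F (c θ) ≠ F z.1 := by
    intro hev
    have h1 : deriv c 0 ∈ Tan {y | y ∈ N ∧ F y = F z.1} z.1 := by
      refine ⟨c, hc0, ?_, ((hc.smooth.differentiable (by simp)) 0).hasDerivAt⟩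
      filter_upwards [hev] with θ hθ
      exact ⟨hc.mem θ, not_not.1 hθ⟩
    rw [ht z.1 hz.1] at h1
    obtain ⟨A, hAX, hAv⟩ := h1
    have h2 := hu' A hAX 0
    rw [hc0, hAv, real_inner_self_eq_norm_sq, hc.unit] at h2
    norm_num at h2
  have hFc : Continuous fun θ => F (c θ) := h.trans.smooth.continuous.comp hc.smooth.continuous
  have hnear : ∀ᶠ θ in 𝓝 (0 : ℝ), |F (c θ) - F z.1| < 1 := by
    have h1 : ContinuousAt (fun θ => |F (c θ) - F z.1|) 0 :=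
      (hFc.sub continuous_const).abs.continuousAt
    refine h1.eventually (gt_mem_nhds ?_)
    show |F (c 0) - F z.1| < 1
    rw [hc0, sub_self, abs_zero]
    exact one_pos
  have hlim : Tendsto (fun θ => (c θ, ‖z.2‖ • deriv c θ)) (𝓝 0) (𝓝 z) := by
    have h1 : Continuous fun θ => (c θ, ‖z.2‖ • deriv c θ) :=
      hc.smooth.continuous.prodMk
        ((contDiff_infty_iff_deriv.1 hc.smooth).2.continuous.const_smul ‖z.2‖)
    have h2 := h1.tendsto 0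
    rw [hc0, hd0, smul_smul, mul_inv_cancel₀ hp0.ne', one_smul] at h2
    exact h2
  have hcl : IsClosed (MF N g) := isClosed_closure
  refine hcl.mem_of_frequently_of_tendsto ?_ hlim
  refine (hfr.and_eventually hnear).mono fun θ hθ => ?_
  refine gi_reg h ht ⟨hc.mem θ, Tan.smul (gc_tan hc θ) _⟩ ?_ ?_
  · show |F (c θ)| < 1
    refine lt_of_le_of_ne (h.abs_le (hc.mem θ)) fun he => ?_
    obtain ⟨h1, h2⟩ := hθ
    rcases abs_eq (zero_le_one' ℝ) |>.1 he with h3 | h3 <;>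
      rcases abs_eq (zero_le_one' ℝ) |>.1 hr with h4 | h4
    · exact h1 (h3.trans h4.symm)
    · rw [h3, h4] at h2
      norm_num at h2
    · rw [h3, h4] at h2
      norm_num at h2
    · exact h1 (h3.trans h4.symm)
  · intro A hAX
    show ⟪‖z.2‖ • deriv c θ, A (c θ)⟫ = 0
    rw [inner_smul_left, hu' A hAX, mul_zero]

theorem zero_mom (h : TD n N Pr F g)
    (hs : ∀ A ∈ 𝔛, ∀ v w : E m, ⟪A v, w⟫ = -⟪v, A w⟫)
    (ht : ∀ q ∈ N, Tan {y | y ∈ N ∧ F y = F q} q = {v | ∃ A ∈ 𝔛, A q = v})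
    {z : E m × E m} (hz : z ∈ TN N) (hu : ∀ A ∈ 𝔛, ⟪z.2, A z.1⟫ = 0) : z ∈ MF N g := by
  rcases (h.abs_le hz.1).lt_or_eq with hr | hr
  · exact gi_reg h ht hz hr hu
  · exact gi_sing h hs ht hz hr hu

theorem inv_sub (hN : ClosedMfd n N ⊥) (hF : Transnormal N F g) (hL : ExactLag n N ⊥ S f)
    (hI : Invt N F S) : S ⊆ MF N g := by
  obtain ⟨𝔛, hs, ht, hi⟩ := hI
  obtain ⟨Pr, g', h, -, hMF⟩ := exists_TD hN hF
  rw [← hMF]
  intro z hz
  exact zero_mom h hs ht (hL.subTN hz) fun A hA => mom_zero hN hL (hs A hA) (hi A hA) hz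

end Pool.Agent.H86.GI
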