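import Pool.Agent.H86.GI.Defs
import Pool.Agent.H57.NL.MaxPair
import Pool.Agent.H2.TI.Main

/-!
# The moment map vanishes on an invariant exact Lagrangian

Along the curve `t ↦ (exp (tA) q, exp (tA) p)` in `S` the function `u = ⟪p, A q⟫` is constant and
`f' = u`. Since `f` is bounded on the compact set `S`, `u = 0`.
-/

set_option autoImplicit false

open scoped ContDiff Topology RealInnerProductSpace
open Set Filter

namespace Pool.Agent.H86.GI

open Pool.Agent.H57.NL Pool.Agent.H2.TG Pool.Agent.H2.TI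

variable {m n : ℕ} {N : Set (E m)} {S : Set (E m × E m)} {f : E m × E m → ℝ}

private lemma mom_exp (A : E m →L[ℝ] E m) (v : E m) (t : ℝ) :
    HasDerivAt (fun t : ℝ => NormedSpace.exp (t • A) v) (A (NormedSpace.exp (t • A) v)) t := by
  have h := (hasDerivAt_exp_smul_const' (𝕂 := ℝ) A t).clm_apply (hasDerivAt_const t v)
  rw [map_zero, add_zero] at h
  exact h

private lemma mom_cpt (hN : ClosedMfd n N ⊥) (hL : ExactLag n N ⊥ S f) : IsCompact S := by
  obtain ⟨R, hR⟩ := hL.bdd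
  refine ((closedMfd_compact hN).prod (isCompact_closedBall (0 : E m) R)).of_isClosed_subset
    hL.closed ?_
  intro z hz
  exact ⟨(hL.subTN hz).1, mem_closedBall_zero_iff.2 (hR z hz)⟩

theorem mom_zero (hN : ClosedMfd n N ⊥) (hL : ExactLag n N ⊥ S f) {A : E m →L[ℝ] E m}
    (hA : ∀ v w : E m, ⟪A v, w⟫ = -⟪v, A w⟫)
    (hI : ∀ t : ℝ, ∀ z ∈ S, (NormedSpace.exp (t • A) z.1, NormedSpace.exp (t • A) z.2) ∈ S)
    {z : E m × E m} (hz : z ∈ S) : ⟪z.2, A z.1⟫ = 0 := by
  set γ : ℝ → E m × E m := fun t => (NormedSpace.exp (t • A) z.1, NormedSpace.exp (t • A) z.2)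
    with hγ
  have hγ0 : γ 0 = z := by
    show (NormedSpace.exp ((0 : ℝ) • A) z.1, NormedSpace.exp ((0 : ℝ) • A) z.2) = z
    have h0 : (0 : ℝ) • A = 0 := zero_smul ℝ A
    rw [h0, NormedSpace.exp_zero]
    rfl
  have hγS : ∀ t, γ t ∈ S := fun t => hI t z hz
  have h1 : ∀ t, HasDerivAt (fun t => (γ t).1) (A (γ t).1) t := fun t => mom_exp A z.1 t
  have h2 : ∀ t, HasDerivAt (fun t => (γ t).2) (A (γ t).2) t := fun t => mom_exp A z.2 t
  have hγd : ∀ t, HasDerivAt γ (A (γ t).1, A (γ t).2) t := fun t => (h1 t).prodMk (h2 t)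
  have hu : ∀ t, ⟪(γ t).2, A (γ t).1⟫ = ⟪z.2, A z.1⟫ := by
    have hd : ∀ t, HasDerivAt (fun t => ⟪(γ t).2, A (γ t).1⟫) 0 t := by
      intro t
      have h3 := (h2 t).inner ℝ (A.hasFDerivAt.comp_hasDerivAt t (h1 t))
      have h4 : ⟪(γ t).2, A (A (γ t).1)⟫ + ⟪A (γ t).2, A (γ t).1⟫ = 0 := by
        rw [hA (γ t).2 (A (γ t).1)]
        ring
      rw [← h4]
      exact h3
    intro t
    have h5 := is_const_of_deriv_eq_zero (fun t => (hd t).differentiableAt)
      (fun t => (hd t).deriv) t 0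
    rw [hγ0] at h5
    exact h5
  have hf : ∀ t, HasDerivAt (fun t => f (γ t)) ⟪z.2, A z.1⟫ t := by
    intro t
    have h3 := (hL.exact (γ t) (hγS t)).comp_hasDerivWithinAt (s := univ) t
      (hγd t).hasDerivWithinAt (fun s _ => hγS s)
    have h4 := h3.hasDerivAt univ_mem
    rw [liou_apply] at h4
    rw [← hu t]
    exact h4
  have hlin : ∀ t, f (γ t) = f z + t * ⟪z.2, A z.1⟫ := by
    have hd : ∀ t, HasDerivAt (fun t => f (γ t) - t * ⟪z.2, A z.1⟫) 0 t := by
      intro t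
      have h3 := (hf t).sub ((hasDerivAt_id t).mul_const ⟪z.2, A z.1⟫)
      rw [one_mul, sub_self] at h3
      exact h3
    intro t
    have h5 := is_const_of_deriv_eq_zero (fun t => (hd t).differentiableAt)
      (fun t => (hd t).deriv) t 0
    simp only [hγ0, zero_mul, sub_zero] at h5
    linarith
  obtain ⟨C, hC⟩ := (mom_cpt hN hL).exists_bound_of_continuousOn hL.continuousOn
  by_contra hne
  have h3 := hC _ (hγS ((2 * C + 1) / ⟪z.2, A z.1⟫))
  have h4 := hC _ hz
  rw [hlin, div_mul_cancel₀ _ hne, Real.norm_eq_abs] at h3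
  rw [Real.norm_eq_abs] at h4
  have h5 := le_abs_self (f z + (2 * C + 1))
  have h6 := neg_abs_le (f z)
  linarith

end Pool.Agent.H86.GI
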